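import Pool.Agent.T2H28.EC.Link

/-! Asymptotics of the logarithmic averages. -/

set_option autoImplicit false

namespace Pool.Agent.T2H28.EC

open NumberField IsDedekindDomain Filter Topology
open Pool.Agent.W353.FB Pool.Agent.W540.BE
open Pool.Agent.H341R2 (lam lam_tendsto)
open Pool.Agent.Y722.EP (log_ratio)

section
variable {K : Type} [Field K] [NumberField K]

open Classical in
/-- the function without the values at the exceptional primes -/
noncomputable def bb (R : Finset (HeightOneSpectrum (𝓞 K))) (b : HeightOneSpectrum (𝓞 K) → ℝ)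
    (v : HeightOneSpectrum (𝓞 K)) : ℝ := if v ∈ R then 0 else b v

omit [NumberField K] in
theorem bb_eventually (R : Finset (HeightOneSpectrum (𝓞 K))) (b : HeightOneSpectrum (𝓞 K) → ℝ) :
    ∀ᶠ v in cofinite, v ∉ R ∧ bb R b v = b v := by
  have h1 : ∀ᶠ v in cofinite, v ∉ R := by
    rw [Filter.eventually_cofinite]
    refine R.finite_toSet.subset fun v hv => ?_
    simpa using hv
  exact h1.mono fun v hv => ⟨hv, if_neg hv⟩

theorem bb_bdd {P : LocalValue K} {R : Finset (HeightOneSpectrum (𝓞 K))}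
    {b : HeightOneSpectrum (𝓞 K) → ℝ} (h : IsSystem P R b) :
    ∃ C : ℝ, 0 ≤ C ∧ ∀ v, |bb R b v| ≤ C := by
  obtain ⟨C, hC⟩ := h.2
  refine ⟨|C|, abs_nonneg C, fun v => ?_⟩
  unfold bb
  split_ifs with hv
  · rw [abs_zero]; exact abs_nonneg C
  · exact (hC v hv).trans (le_abs_self C)

theorem logResidue_eq (R : Finset (HeightOneSpectrum (𝓞 K))) (b : HeightOneSpectrum (𝓞 K) → ℝ)
    (ε : ℝ) : logResidue R b ε = EP (nm K) ε (bb R b) / Real.log (1 / ε) := by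
  unfold logResidue EP
  congr 1
  refine tsum_congr fun v => ?_
  unfold bb
  split_ifs with hv
  · rw [zero_mul]
  · rfl

/-- **Residues and logarithmic averages.** -/
theorem residue_log {P : LocalValue K} {R : Finset (HeightOneSpectrum (𝓞 K))}
    {b : HeightOneSpectrum (𝓞 K) → ℝ} (h : IsSystem P R b) {x : ℝ}
    (hx : Tendsto (residue R b) (𝓝[>] 1) (𝓝 x)) : Tendsto (logResidue R b) (𝓝[>] 0) (𝓝 x) := by
  obtain ⟨C, -, hC⟩ := bb_bdd h
  have h1 := EP_log_lim (N := nm K) normSys hC (x := x) (hx.congr fun s => by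
    unfold residue
    congr 1
    refine tsum_congr fun v => ?_
    unfold bb
    split_ifs with hv
    · rw [zero_mul, zero_mul]
    · rfl)
  exact h1.congr fun ε => (logResidue_eq R b ε).symm

/-- close functions -/
theorem EP_close {φ ψ : HeightOneSpectrum (𝓞 K) → ℝ} {M₁ M₂ C : ℝ} (hφ : ∀ v, |φ v| ≤ M₁)
    (hψ : ∀ v, |ψ v| ≤ M₂)
    (h : ∀ᶠ v in cofinite, |φ v - ψ v| ≤ C * (nm K v : ℝ) ^ (-(1 / 2) : ℝ)) :
    ∃ M : ℝ, ∀ ε : ℝ, 0 < ε → |EP (nm K) ε φ - EP (nm K) ε ψ| ≤ M := by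
  classical
  have hN : NormSys (nm K) := normSys
  have hfin := Filter.eventually_cofinite.1 h
  set F := hfin.toFinset with hF
  have hs1 : Summable fun v => |C| * (nm K v : ℝ) ^ (-(3 / 2) : ℝ) :=
    (hN.summable _ (by norm_num)).mul_left _
  have hs2 : Summable fun v => if v ∈ F then |M₁| + |M₂| else 0 :=
    summable_of_ne_finset_zero (s := F) fun v hv => if_neg hv
  refine ⟨∑' v, (|C| * (nm K v : ℝ) ^ (-(3 / 2) : ℝ) + if v ∈ F then |M₁| + |M₂| else 0),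
    fun ε hε => ?_⟩
  rw [EP, EP, ← (summable_EP hN hε hφ).tsum_sub (summable_EP hN hε hψ), ← Real.norm_eq_abs]
  refine tsum_of_norm_bounded (hs1.add hs2).hasSum fun v => ?_
  have hv1 : (1 : ℝ) ≤ nm K v := by
    have := two_le_nm v
    exact_mod_cast (by omega : 1 ≤ nm K v)
  have hw0 := wP_nonneg (N := nm K) ε v
  rw [Real.norm_eq_abs, ← sub_mul, abs_mul, abs_of_nonneg hw0]
  by_cases hv : v ∈ F
  · rw [if_pos hv]
    have h1 : |φ v - ψ v| ≤ |M₁| + |M₂| :=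
      (abs_sub _ _).trans (add_le_add ((hφ v).trans (le_abs_self _)) ((hψ v).trans (le_abs_self _)))
    have h2 : (nm K v : ℝ) ^ (-(1 + ε)) ≤ 1 :=
      Real.rpow_le_one_of_one_le_of_nonpos hv1 (by linarith)
    have h3 : 0 ≤ |C| * (nm K v : ℝ) ^ (-(3 / 2) : ℝ) := by positivity
    have h4 : |φ v - ψ v| * (nm K v : ℝ) ^ (-(1 + ε)) ≤ (|M₁| + |M₂|) * 1 :=
      mul_le_mul h1 h2 hw0 (by positivity)
    linarith
  · rw [if_neg hv, add_zero]
    have h1 : |φ v - ψ v| ≤ C * (nm K v : ℝ) ^ (-(1 / 2) : ℝ) := by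
      by_contra h2
      exact hv (hfin.mem_toFinset.2 h2)
    have h2 : C * (nm K v : ℝ) ^ (-(1 / 2) : ℝ) ≤ |C| * (nm K v : ℝ) ^ (-(1 / 2) : ℝ) :=
      mul_le_mul_of_nonneg_right (le_abs_self C) (by positivity)
    have h3 : (nm K v : ℝ) ^ (-(1 + ε)) ≤ (nm K v : ℝ) ^ (-1 : ℝ) :=
      Real.rpow_le_rpow_of_exponent_le hv1 (by linarith)
    calc |φ v - ψ v| * (nm K v : ℝ) ^ (-(1 + ε))
        ≤ (|C| * (nm K v : ℝ) ^ (-(1 / 2) : ℝ)) * (nm K v : ℝ) ^ (-1 : ℝ) :=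
          mul_le_mul (h1.trans h2) h3 hw0 (by positivity)
      _ = |C| * ((nm K v : ℝ) ^ (-(1 / 2) : ℝ) * (nm K v : ℝ) ^ (-1 : ℝ)) := by ring
      _ = _ := by
          rw [← Real.rpow_add (nm_pos v)]
          norm_num

theorem tendsto_log : Tendsto (fun ε : ℝ => Real.log (1 / ε)) (𝓝[>] 0) atTop := by
  have h := Real.tendsto_log_atTop.comp tendsto_inv_nhdsGT_zero
  refine h.congr fun ε => ?_
  rw [one_div]
  rfl

theorem close_lim {φ ψ : HeightOneSpectrum (𝓞 K) → ℝ} {M : ℝ} {l : ℝ → ℝ}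
    (hl : Tendsto l (𝓝[>] 0) atTop)
    (h : ∀ ε : ℝ, 0 < ε → |EP (nm K) ε φ - EP (nm K) ε ψ| ≤ M) :
    Tendsto (fun ε : ℝ => EP (nm K) ε φ / l ε - EP (nm K) ε ψ / l ε) (𝓝[>] 0) (𝓝 0) := by
  have h1 : Tendsto (fun ε : ℝ => M / l ε) (𝓝[>] 0) (𝓝 0) := tendsto_const_nhds.div_atTop hl
  refine squeeze_zero_norm' ?_ h1
  filter_upwards [hl.eventually_gt_atTop 0, self_mem_nhdsWithin] with ε h2 h3
  rw [Real.norm_eq_abs, ← sub_div, abs_div, abs_of_pos h2]
  exact div_le_div_of_nonneg_right (h ε h3) h2.le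

/-- the two normalisations -/
theorem lam_log {φ : HeightOneSpectrum (𝓞 K) → ℝ} {M : ℝ} (hφ : ∀ v, |φ v| ≤ M) :
    Tendsto (fun ε : ℝ => EP (nm K) ε φ / lam ε - EP (nm K) ε φ / Real.log (1 / ε)) (𝓝[>] 0)
      (𝓝 0) := by
  have hN : NormSys (nm K) := normSys
  have h1 : Tendsto (fun ε : ℝ => |M| * ((EP (nm K) ε fun _ => 1) / lam ε) *
      |1 - (Real.log (1 / ε) / lam ε)⁻¹|) (𝓝[>] 0) (𝓝 0) := by
    have h2 := (EP_one K).const_mul |M|
    have h3 := ((log_ratio.inv₀ one_ne_zero).const_sub 1).abs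
    have h4 := h2.mul h3
    simpa using h4
  refine squeeze_zero_norm' ?_ h1
  filter_upwards [lam_tendsto.eventually_gt_atTop 0, tendsto_log.eventually_gt_atTop 0,
    self_mem_nhdsWithin] with ε h2 h3 h4
  have hε : (0 : ℝ) < ε := h4
  have e1 : EP (nm K) ε φ / lam ε - EP (nm K) ε φ / Real.log (1 / ε) =
      EP (nm K) ε φ / lam ε * (1 - (Real.log (1 / ε) / lam ε)⁻¹) := by
    rw [inv_div]
    field_simp
  rw [e1, Real.norm_eq_abs, abs_mul]
  refine mul_le_mul_of_nonneg_right ?_ (abs_nonneg _)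
  rw [abs_div, abs_of_pos h2, ← mul_div_assoc]
  refine div_le_div_of_nonneg_right ?_ h2.le
  exact Pool.Agent.Y149.CR.abs_EP_le hN hε fun v => (hφ v).trans (le_abs_self M)

end

end Pool.Agent.T2H28.EC
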