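import Pool.Agent.W353.FB.Defs
import Pool.Agent.Y722.EP.Defs

/-!
# Products of a fibration with elliptic curves: definitions

`f : 𝒳 → 𝒴` is a fibration over a number field `K` and `C` is a smooth projective curve over `K`.  The
fibre over `t` of the fibration `𝒳 × C → 𝒴` is `𝒳_t × C`, and by the theorem of Künneth `H²(𝒳_t × C)` is
the sum of `H²(𝒳_t)`, `H¹(𝒳_t) ⊗ H¹(C)` and `H²(C)`.
-/

set_option autoImplicit false

namespace Pool.Agent.T2H28.EC

open NumberField IsDedekindDomain Filter Topology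
open Pool.Agent.W353.FB

section
variable {K : Type} [Field K]

/-- The traces `e = q + 1 - #E(κ)` on `H¹(E)`, `E` the elliptic curve `y² = x³ + a x + b`, `a, b ∈ ℤ`, over the
finite field `κ` with `q` elements. -/
def ellipticTrace (a b : ℤ) : LocalValue K :=
  fun κ _ _ e => e = (Nat.card κ : ℝ) + 1 - Pool.Agent.Y722.EP.points κ a b

/-- The traces on `H¹` of the projective line. -/
def lineTrace : LocalValue K :=
  fun _ _ _ e => e = 0

/-- The values `z = 𝔅 / q` of the fibration `𝒳 × C → 𝒴`, for a curve `C` with the traces `e` on `H¹(C)`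
given by `E`: `𝔅` is `q^{-m}` times the sum, over the points `t` of the base, of the trace on
`H²(𝒳_t × C)`, which is `a₂ + e a₁ + q` for the traces `a₁`, `a₂` on `H¹(𝒳_t)` and `H²(𝒳_t)`. -/
def productValue (f : Fibration K) (E : LocalValue K) : LocalValue K :=
  fun κ _ φ z => ∃ (e : ℝ) (c : (Fin f.l → κ) → ℝ), E κ φ e ∧
    (∀ t ∈ f.points φ, ∃ a₁ a₂ : ℝ, IsTrace f.eqFibre f.r 1 (MvPolynomial.eval₂Hom φ t) a₁ ∧
      IsTrace f.eqFibre f.r 2 (MvPolynomial.eval₂Hom φ t) a₂ ∧ c t = a₂ + e * a₁ + Nat.card κ) ∧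
    z = ((Nat.card κ : ℝ) ^ f.m)⁻¹ * (∑ᶠ t ∈ f.points φ, c t) / Nat.card κ

/-- The values `z = a² / q` for the trace `a` on `H¹(B)` of the projective variety `B` over `K`, of
dimension at most `g`. -/
def squareValue {n : ℕ} (B : Set (MvPolynomial (Fin n) (𝓞 K))) (g : ℕ) : LocalValue K :=
  fun κ _ φ z => ∃ a : ℝ, IsTrace B g 1 φ a ∧ z = a ^ 2 / Nat.card κ

end

section
variable {K : Type} [Field K] [NumberField K]

/-- For almost all primes of `K` the fibre average `A` of the traces on `H¹` of the fibration `f` is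
`a + O(1)`, where `a` is the trace on `H¹(B)`, of absolute value at most `N √q`.  This is so if the
abelian variety `B` is the trace of the Picard variety of the generic fibre, and `N = 2 dim B`. -/
def HasTrace (f : Fibration K) {n : ℕ} (B : Set (MvPolynomial (Fin n) (𝓞 K))) (g N : ℕ) : Prop :=
  ∃ C : ℝ, ∀ᶠ v : HeightOneSpectrum (𝓞 K) in cofinite, ∀ (κ : Type) [Field κ] (φ : 𝓞 K →+* κ),
    RingHom.ker φ = v.asIdeal → Nat.card κ = Ideal.absNorm v.asIdeal →
      ∃ A a : ℝ, f.IsAverage 1 φ A ∧ IsTrace B g 1 φ a ∧ |a| ≤ N * Real.sqrt (Nat.card κ) ∧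
        |A - a| ≤ C

open Classical in
/-- The logarithmic average `(∑_{v ∉ R} b(v) q_v^{-(1+ε)}) / log (1/ε)`.  If the Dirichlet series
`∑ b(v) (log q_v) q_v^{-s}` has the residue `x` at `s = 1`, then its limit for `ε → 0+` is `x`. -/
noncomputable def logResidue (R : Finset (HeightOneSpectrum (𝓞 K)))
    (b : HeightOneSpectrum (𝓞 K) → ℝ) (ε : ℝ) : ℝ :=
  (∑' v : HeightOneSpectrum (𝓞 K), if v ∈ R then 0 else
    b v * (Ideal.absNorm v.asIdeal : ℝ) ^ (-(1 + ε))) / Real.log (1 / ε)

end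

end Pool.Agent.T2H28.EC
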