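import Pool.Agent.T2H28.EC.Main

/-! Products of a fibration with modular elliptic curves: consequences. -/

set_option autoImplicit false

namespace Pool.Agent.T2H28.EC

open NumberField IsDedekindDomain Filter Topology
open Pool.Agent.W353.FB Pool.Agent.W540.BE
open Pool.Agent.Y722.EP (IsModular NotIsogenous sqrt_nm_pos)

section
variable {K : Type} [Field K] [NumberField K] {f : Fibration K} {n : ℕ}
  {B : Set (MvPolynomial (Fin n) (𝓞 K))} {g N : ℕ}

/-- the counting lemma -/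
theorem count {ι : Type*} {x : ι → ℝ} {M η : ℝ} (hη : 0 < η)
    (h : ∀ S : Finset ι, ∑ i ∈ S, (max (x i) 0) ^ 2 ≤ M ∧ ∑ i ∈ S, (max (-x i) 0) ^ 2 ≤ M) :
    {i | η ≤ |x i|}.Finite ∧ ({i | η ≤ |x i|}.ncard : ℝ) ≤ 2 * M / η ^ 2 := by
  have hb : ∀ J : Finset ι, (J : Set ι) ⊆ {i | η ≤ |x i|} → (J.card : ℝ) ≤ 2 * M / η ^ 2 := by
    intro J hJ
    rw [le_div_iff₀ (by positivity)]
    have h1 : ∑ _i ∈ J, η ^ 2 ≤ ∑ i ∈ J, ((max (x i) 0) ^ 2 + (max (-x i) 0) ^ 2) := by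
      refine Finset.sum_le_sum fun i hi => ?_
      have h2 : η ≤ |x i| := hJ hi
      have h3 : η ^ 2 ≤ x i ^ 2 := by
        rw [← sq_abs (x i)]
        exact pow_le_pow_left₀ hη.le h2 2
      refine h3.trans ?_
      rcases le_total (x i) 0 with h4 | h4
      · rw [max_eq_right h4, max_eq_left (by linarith : 0 ≤ -x i)]
        nlinarith
      · rw [max_eq_left h4]
        nlinarith [sq_nonneg (max (-x i) 0)]
    rw [Finset.sum_const, nsmul_eq_mul, Finset.sum_add_distrib] at h1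
    have h2 := h J
    linarith [h2.1, h2.2]
  have hfin : {i | η ≤ |x i|}.Finite := by
    by_contra hinf
    obtain ⟨m, hm⟩ := exists_nat_gt (2 * M / η ^ 2)
    obtain ⟨J, hJ, hc⟩ := Set.Infinite.exists_subset_card_eq hinf m
    have := hb J hJ
    rw [hc] at this
    linarith
  refine ⟨hfin, ?_⟩
  rw [Set.ncard_eq_toFinset_card _ hfin]
  exact hb _ (by simp)

/-- **The residues.** -/
theorem main_lim (hg : 1 ≤ g) (hB : HasTrace f B g N) {ι : Type*} (S : Finset ι) (a b : ι → ℤ)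
    (hΔ : ∀ i ∈ S, 4 * a i ^ 3 + 27 * b i ^ 2 ≠ 0) (hmod : ∀ i ∈ S, IsModular (a i) (b i))
    (hne : ∀ i ∈ S, ∀ j ∈ S, i ≠ j → NotIsogenous (a i) (b i) (a j) (b j))
    (R : ι → Finset (HeightOneSpectrum (𝓞 K))) (z : ι → HeightOneSpectrum (𝓞 K) → ℝ)
    (R₀ R₁ : Finset (HeightOneSpectrum (𝓞 K))) (z₀ c : HeightOneSpectrum (𝓞 K) → ℝ)
    (hz : ∀ i ∈ S, IsSystem (productValue f (ellipticTrace (a i) (b i))) (R i) (z i))
    (hz₀ : IsSystem (productValue f lineTrace) R₀ z₀) (hc : IsSystem (squareValue B g) R₁ c)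
    {y : ℝ} (hy : ∀ η : ℝ, 0 < η → ∀ᶠ ε : ℝ in 𝓝[>] 0, logResidue R₁ c ε ≤ y + η)
    {x : ι → ℝ} {x₀ : ℝ} (hx : ∀ i ∈ S, Tendsto (logResidue (R i) (z i)) (𝓝[>] 0) (𝓝 (x i)))
    (hx₀ : Tendsto (logResidue R₀ z₀) (𝓝[>] 0) (𝓝 x₀)) :
    ∑ i ∈ S, (max (x i - x₀) 0) ^ 2 ≤ Module.finrank ℚ K * y ∧
      ∑ i ∈ S, (max (-(x i - x₀)) 0) ^ 2 ≤ Module.finrank ℚ K * y := by
  have key : ∀ σ : ℝ, |σ| = 1 →
      ∑ i ∈ S, (max (σ * (x i - x₀)) 0) ^ 2 ≤ Module.finrank ℚ K * y := by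
    intro σ hσ
    have hcont : Continuous fun x : ℝ => (max (σ * x) 0) ^ 2 := by fun_prop
    have h1 : Tendsto (fun ε => ∑ i ∈ S,
        (max (σ * (logResidue (R i) (z i) ε - logResidue R₀ z₀ ε)) 0) ^ 2) (𝓝[>] 0)
        (𝓝 (∑ i ∈ S, (max (σ * (x i - x₀)) 0) ^ 2)) :=
      tendsto_finsetSum S fun i hi => (hcont.tendsto _).comp ((hx i hi).sub hx₀)
    refine le_of_forall_pos_le_add fun η hη => ?_
    have hD : (0 : ℝ) < Module.finrank ℚ K := by
      exact_mod_cast Module.finrank_pos (R := ℚ) (M := K)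
    have h2 := hy (η / (2 * Module.finrank ℚ K)) (by positivity)
    have h3 := main_sum hg hB S a b hΔ hmod hne R z R₀ R₁ z₀ c hz hz₀ hc hσ (half_pos hη)
    refine le_of_tendsto h1 ?_
    filter_upwards [h2, h3] with ε h4 h5
    have h6 := mul_le_mul_of_nonneg_left h4 hD.le
    have h7 : (Module.finrank ℚ K : ℝ) * (y + η / (2 * Module.finrank ℚ K)) =
        Module.finrank ℚ K * y + η / 2 := by
      field_simp
    linarith
  refine ⟨by simpa using key 1 (by simp), ?_⟩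
  have h := key (-1) (by simp)
  simpa using h

/-- **Infinite families.** -/
theorem main_inf (hg : 1 ≤ g) (hB : HasTrace f B g N) {ι : Type*} [Infinite ι] (a b : ι → ℤ)
    (hΔ : ∀ i, 4 * a i ^ 3 + 27 * b i ^ 2 ≠ 0) (hmod : ∀ i, IsModular (a i) (b i))
    (hne : ∀ i j, i ≠ j → NotIsogenous (a i) (b i) (a j) (b j))
    (R : ι → Finset (HeightOneSpectrum (𝓞 K))) (z : ι → HeightOneSpectrum (𝓞 K) → ℝ)
    (R₀ R₁ : Finset (HeightOneSpectrum (𝓞 K))) (z₀ c : HeightOneSpectrum (𝓞 K) → ℝ)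
    (hz : ∀ i, IsSystem (productValue f (ellipticTrace (a i) (b i))) (R i) (z i))
    (hz₀ : IsSystem (productValue f lineTrace) R₀ z₀) (hc : IsSystem (squareValue B g) R₁ c)
    {x : ι → ℝ} (hx : ∀ i, Tendsto (logResidue (R i) (z i)) (𝓝[>] 0) (𝓝 (x i))) :
    ∃ x₀ : ℝ, Tendsto (logResidue R₀ z₀) (𝓝[>] 0) (𝓝 x₀) ∧ Tendsto x cofinite (𝓝 x₀) := by
  classical
  set D : ℝ := (Module.finrank ℚ K : ℝ) with hDdef
  have hD : 0 < D := by
    rw [hDdef]
    exact_mod_cast Module.finrank_pos (R := ℚ) (M := K)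
  have hex : ∃ x₀ : ℝ, Tendsto (logResidue R₀ z₀) (𝓝[>] 0) (𝓝 x₀) := by
    rw [← cauchy_map_iff_exists_tendsto, Metric.cauchy_iff]
    refine ⟨inferInstance, fun η hη => ?_⟩
    set M : ℝ := D * ((N : ℝ) ^ 2 + 1) + 1 with hM
    have hM0 : 0 < M := by positivity
    set δ : ℝ := η / 5 with hδ
    have hδ0 : 0 < δ := by positivity
    obtain ⟨m, hm⟩ := exists_nat_gt (4 * M / δ ^ 2)
    obtain ⟨S, hS⟩ := Infinite.exists_subset_card_eq ι m
    have h1 := main_sum hg hB S a b (fun i _ => hΔ i) (fun i _ => hmod i)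
      (fun i _ j _ => hne i j) R z R₀ R₁ z₀ c (fun i _ => hz i) hz₀ hc (σ := 1) (by simp) one_pos
    have h2 := main_sum hg hB S a b (fun i _ => hΔ i) (fun i _ => hmod i)
      (fun i _ j _ => hne i j) R z R₀ R₁ z₀ c (fun i _ => hz i) hz₀ hc (σ := -1) (by simp) one_pos
    have h3 := square_le hg hB hc one_pos
    have h4 : ∀ᶠ ε : ℝ in 𝓝[>] 0, ∀ i ∈ S, |logResidue (R i) (z i) ε - x i| < δ := by
      rw [Filter.eventually_all_finset]
      intro i _
      have := Metric.tendsto_nhds.1 (hx i) δ hδ0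
      exact this.mono fun ε h => by rwa [Real.dist_eq] at h
    have h5 : ∀ᶠ ε : ℝ in 𝓝[>] 0, ((S.filter fun i =>
        ¬ |x i - logResidue R₀ z₀ ε| < 2 * δ).card : ℝ) ≤ 2 * M / δ ^ 2 := by
      filter_upwards [h1, h2, h3, h4] with ε g1 g2 g3 g4
      rw [le_div_iff₀ (by positivity)]
      have g5 := mul_le_mul_of_nonneg_left g3 hD.le
      have g6 : ∑ _i ∈ S.filter (fun i => ¬ |x i - logResidue R₀ z₀ ε| < 2 * δ), δ ^ 2 ≤
          ∑ i ∈ S, ((max (1 * (logResidue (R i) (z i) ε - logResidue R₀ z₀ ε)) 0) ^ 2 +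
            (max (-1 * (logResidue (R i) (z i) ε - logResidue R₀ z₀ ε)) 0) ^ 2) := by
        refine (Finset.sum_le_sum fun i hi => ?_).trans (Finset.sum_le_sum_of_subset_of_nonneg
          (Finset.filter_subset _ _) fun i _ _ => by positivity)
        obtain ⟨hi1, hi2⟩ := Finset.mem_filter.1 hi
        set t := logResidue (R i) (z i) ε - logResidue R₀ z₀ ε with ht
        have g7 : δ ≤ |t| := by
          have g8 := g4 i hi1
          have g9 : |x i - logResidue R₀ z₀ ε| ≤ |x i - logResidue (R i) (z i) ε| + |t| := by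
            have : x i - logResidue R₀ z₀ ε = (x i - logResidue (R i) (z i) ε) + t := by
              rw [ht]; ring
            rw [this]
            exact abs_add_le _ _
          rw [abs_sub_comm] at g8
          linarith [not_lt.1 hi2]
        have g10 : δ ^ 2 ≤ t ^ 2 := by
          rw [← sq_abs t]
          exact pow_le_pow_left₀ hδ0.le g7 2
        refine g10.trans ?_
        rw [one_mul, neg_one_mul]
        rcases le_total t 0 with g11 | g11
        · rw [max_eq_right g11, max_eq_left (by linarith : 0 ≤ -t)]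
          nlinarith
        · rw [max_eq_left g11]
          nlinarith [sq_nonneg (max (-t) 0)]
      rw [Finset.sum_const, nsmul_eq_mul, Finset.sum_add_distrib] at g6
      rw [hM]
      linarith
    refine ⟨(logResidue R₀ z₀) '' {ε | ((S.filter fun i =>
      ¬ |x i - logResidue R₀ z₀ ε| < 2 * δ).card : ℝ) ≤ 2 * M / δ ^ 2}, image_mem_map h5, ?_⟩
    rintro _ ⟨ε, hε, rfl⟩ _ ⟨ε', hε', rfl⟩
    rw [Set.mem_ofPred_eq] at hε hε'
    have h6 : ∃ i ∈ S, |x i - logResidue R₀ z₀ ε| < 2 * δ ∧ |x i - logResidue R₀ z₀ ε'| < 2 * δ := by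
      by_contra hcon
      push Not at hcon
      have h7 : S ⊆ (S.filter fun i => ¬ |x i - logResidue R₀ z₀ ε| < 2 * δ) ∪
          (S.filter fun i => ¬ |x i - logResidue R₀ z₀ ε'| < 2 * δ) := by
        intro i hi
        rw [Finset.mem_union, Finset.mem_filter, Finset.mem_filter]
        by_cases h8 : |x i - logResidue R₀ z₀ ε| < 2 * δ
        · exact Or.inr ⟨hi, not_lt.2 (hcon i hi h8)⟩
        · exact Or.inl ⟨hi, h8⟩
      have h8 := (Finset.card_le_card h7).trans (Finset.card_union_le _ _)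
      rw [hS] at h8
      have h9 : (m : ℝ) ≤ 2 * M / δ ^ 2 + 2 * M / δ ^ 2 := by
        refine le_trans ?_ (add_le_add hε hε')
        exact_mod_cast h8
      have h10 : 2 * M / δ ^ 2 + 2 * M / δ ^ 2 = 4 * M / δ ^ 2 := by ring
      linarith
    obtain ⟨i, -, h7, h8⟩ := h6
    rw [Real.dist_eq]
    have h9 : |logResidue R₀ z₀ ε - logResidue R₀ z₀ ε'| ≤
        |x i - logResidue R₀ z₀ ε| + |x i - logResidue R₀ z₀ ε'| := by
      have : logResidue R₀ z₀ ε - logResidue R₀ z₀ ε' =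
          -(x i - logResidue R₀ z₀ ε) + (x i - logResidue R₀ z₀ ε') := by ring
      rw [this]
      refine (abs_add_le _ _).trans ?_
      rw [abs_neg]
    rw [hδ] at h7 h8
    linarith
  obtain ⟨x₀, hx₀⟩ := hex
  refine ⟨x₀, hx₀, ?_⟩
  rw [Metric.tendsto_nhds]
  intro η hη
  have h1 := (count (x := fun i => x i - x₀) hη fun S => main_lim hg hB S a b (fun i _ => hΔ i)
    (fun i _ => hmod i) (fun i _ j _ => hne i j) R z R₀ R₁ z₀ c (fun i _ => hz i) hz₀ hc
    (fun η hη => square_le hg hB hc hη) (fun i _ => hx i) hx₀).1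
  rw [Filter.eventually_cofinite]
  refine h1.subset fun i hi => ?_
  rw [Set.mem_ofPred_eq, Real.dist_eq, not_lt] at hi
  exact hi

/-- the trace zero case: close values -/
theorem zero_close (hB : HasTrace f B g 0) {E : LocalValue K} {G : ℝ}
    (hE : ∀ᶠ v : HeightOneSpectrum (𝓞 K) in cofinite, ∀ (κ : Type) [Field κ] (φ : 𝓞 K →+* κ)
      (e : ℝ), RingHom.ker φ = v.asIdeal → Nat.card κ = Ideal.absNorm v.asIdeal → E κ φ e →
        |e| ≤ G * Real.sqrt (Nat.card κ))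
    {R R₀ : Finset (HeightOneSpectrum (𝓞 K))} {z z₀ : HeightOneSpectrum (𝓞 K) → ℝ}
    (hz : IsSystem (productValue f E) R z) (hz₀ : IsSystem (productValue f lineTrace) R₀ z₀) :
    ∃ C : ℝ, ∀ᶠ v in cofinite, |bb R z v - bb R₀ z₀ v| ≤
      C * (nm K v : ℝ) ^ (-(1 / 2) : ℝ) := by
  obtain ⟨T, C, hC0, hT, hev⟩ := exists_T hB
  refine ⟨|G| * C, ?_⟩
  filter_upwards [hev, bb_eventually R z, bb_eventually R₀ z₀, hE] with v h1 h2 h3 h4
  obtain ⟨A, hA, -, hAC⟩ := h1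
  obtain ⟨e, he, heq⟩ := product_sub f (valueAt_dat (hz.1 v h2.1)) (valueAt_dat (hz₀.1 v h3.1)) hA
  have h5 := h4 (dat v).κ (dat v).φ e (dat v).ker (dat v).card he
  have hT0 : T v = 0 := by
    have := hT v
    rw [Nat.cast_zero] at this
    exact abs_eq_zero.1 (le_antisymm this (abs_nonneg _))
  rw [hT0, zero_mul, sub_zero] at hAC
  have hs := sqrt_nm_pos v
  have hq : Real.sqrt (nm K v) * Real.sqrt (nm K v) = nm K v := Real.mul_self_sqrt (nm_pos v).le
  rw [card_dat] at h5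
  rw [h2.2, h3.2, heq, card_dat, rpow_half]
  set s := Real.sqrt (nm K v) with hsdef
  rw [← hq, abs_div, abs_mul, abs_of_pos (mul_pos hs hs), div_le_iff₀ (mul_pos hs hs)]
  have e2 : |G| * C * s⁻¹ * (s * s) = (|G| * s) * C := by
    field_simp
  rw [e2]
  refine mul_le_mul (h5.trans ?_) hAC (abs_nonneg _) (by positivity)
  exact mul_le_mul_of_nonneg_right (le_abs_self G) hs.le

/-- **The trace zero case.** -/
theorem main_zero (hB : HasTrace f B g 0) {E : LocalValue K} {G : ℝ}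
    (hE : ∀ᶠ v : HeightOneSpectrum (𝓞 K) in cofinite, ∀ (κ : Type) [Field κ] (φ : 𝓞 K →+* κ)
      (e : ℝ), RingHom.ker φ = v.asIdeal → Nat.card κ = Ideal.absNorm v.asIdeal → E κ φ e →
        |e| ≤ G * Real.sqrt (Nat.card κ))
    {R R₀ : Finset (HeightOneSpectrum (𝓞 K))} {z z₀ : HeightOneSpectrum (𝓞 K) → ℝ}
    (hz : IsSystem (productValue f E) R z) (hz₀ : IsSystem (productValue f lineTrace) R₀ z₀) :
    Tendsto (fun s : ℝ => residue R z s - residue R₀ z₀ s) (𝓝[>] 1) (𝓝 0) := by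
  classical
  have hN : NormSys (nm K) := normSys
  obtain ⟨C, hC⟩ := zero_close hB hE hz hz₀
  obtain ⟨M₁, hM₁0, hM₁⟩ := bb_bdd hz
  obtain ⟨M₂, hM₂0, hM₂⟩ := bb_bdd hz₀
  have hfin := Filter.eventually_cofinite.1 hC
  set F := hfin.toFinset with hF
  have hs1 : Summable fun v => |C| * (Real.log (nm K v) * (nm K v : ℝ) ^ (-(1 + 1 / 2) : ℝ)) :=
    (summable_log hN (by norm_num : (0 : ℝ) < 1 / 2)).mul_left _
  have hs2 : Summable fun v => if v ∈ F then (M₁ + M₂) * Real.log (nm K v) else 0 :=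
    summable_of_ne_finset_zero (s := F) fun v hv => if_neg hv
  set M : ℝ := ∑' v, (|C| * (Real.log (nm K v) * (nm K v : ℝ) ^ (-(1 + 1 / 2) : ℝ)) +
    if v ∈ F then (M₁ + M₂) * Real.log (nm K v) else 0) with hM
  have hsum : ∀ (R : Finset (HeightOneSpectrum (𝓞 K))) (z : HeightOneSpectrum (𝓞 K) → ℝ) (s : ℝ),
      residue R z s = (s - 1) * ∑' v, bb R z v * Real.log (nm K v) * (nm K v : ℝ) ^ (-s) := by
    intro R z s
    unfold residue
    congr 1
    refine tsum_congr fun v => ?_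
    unfold bb
    split_ifs with hv
    · rw [zero_mul, zero_mul]
    · rfl
  have hsb : ∀ {φ : HeightOneSpectrum (𝓞 K) → ℝ} {M' : ℝ}, (∀ v, |φ v| ≤ M') → ∀ {s : ℝ}, 1 < s →
      Summable fun v => φ v * Real.log (nm K v) * (nm K v : ℝ) ^ (-s) := by
    intro φ M' hφ s hs
    have h1 := (summable_log hN (by linarith : 0 < s - 1)).mul_left |M'|
    refine Summable.of_norm_bounded h1 fun v => ?_
    have e1 : -(1 + (s - 1)) = -s := by ring
    rw [e1, mul_assoc, norm_mul, Real.norm_eq_abs, Real.norm_eq_abs, abs_of_nonneg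
      (mul_nonneg (Real.log_natCast_nonneg _) (by positivity) :
        0 ≤ Real.log (nm K v) * (nm K v : ℝ) ^ (-s))]
    exact mul_le_mul_of_nonneg_right ((hφ v).trans (le_abs_self M'))
      (mul_nonneg (Real.log_natCast_nonneg _) (by positivity))
  have hlim : Tendsto (fun s : ℝ => (s - 1) * M) (𝓝[>] 1) (𝓝 0) := by
    have h1 : Tendsto (fun s : ℝ => (s - 1) * M) (𝓝 1) (𝓝 ((1 - 1) * M)) :=
      ((continuous_id.sub continuous_const).mul continuous_const).tendsto 1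
    rw [sub_self, zero_mul] at h1
    exact h1.mono_left nhdsWithin_le_nhds
  refine squeeze_zero_norm' ?_ hlim
  filter_upwards [self_mem_nhdsWithin] with s hs
  have hs' : (1 : ℝ) < s := hs
  rw [hsum, hsum, ← mul_sub, ← (hsb hM₁ hs').tsum_sub (hsb hM₂ hs'), norm_mul, Real.norm_eq_abs,
    abs_of_pos (by linarith : 0 < s - 1)]
  refine mul_le_mul_of_nonneg_left ?_ (by linarith)
  refine tsum_of_norm_bounded (hs1.add hs2).hasSum fun v => ?_
  have hv1 : (1 : ℝ) ≤ nm K v := by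
    have := two_le_nm v
    exact_mod_cast (by omega : 1 ≤ nm K v)
  have hl0 : 0 ≤ Real.log (nm K v) := Real.log_natCast_nonneg _
  have hw0 : 0 ≤ (nm K v : ℝ) ^ (-s) := by positivity
  rw [← sub_mul, ← sub_mul, Real.norm_eq_abs, abs_mul, abs_mul, abs_of_nonneg hl0,
    abs_of_nonneg hw0]
  by_cases hv : v ∈ F
  · rw [if_pos hv]
    have h1 : |bb R z v - bb R₀ z₀ v| ≤ M₁ + M₂ :=
      (abs_sub _ _).trans (add_le_add (hM₁ v) (hM₂ v))
    have h2 : (nm K v : ℝ) ^ (-s) ≤ 1 := Real.rpow_le_one_of_one_le_of_nonpos hv1 (by linarith)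
    have h3 : 0 ≤ |C| * (Real.log (nm K v) * (nm K v : ℝ) ^ (-(1 + 1 / 2) : ℝ)) := by positivity
    have h4 : |bb R z v - bb R₀ z₀ v| * Real.log (nm K v) * (nm K v : ℝ) ^ (-s) ≤
        ((M₁ + M₂) * Real.log (nm K v)) * 1 :=
      mul_le_mul (mul_le_mul_of_nonneg_right h1 hl0) h2 hw0 (by positivity)
    linarith
  · rw [if_neg hv, add_zero]
    have h1 : |bb R z v - bb R₀ z₀ v| ≤ C * (nm K v : ℝ) ^ (-(1 / 2) : ℝ) := by
      by_contra h2
      exact hv (hfin.mem_toFinset.2 h2)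
    have h2 : C * (nm K v : ℝ) ^ (-(1 / 2) : ℝ) ≤ |C| * (nm K v : ℝ) ^ (-(1 / 2) : ℝ) :=
      mul_le_mul_of_nonneg_right (le_abs_self C) (by positivity)
    have h3 : (nm K v : ℝ) ^ (-s) ≤ (nm K v : ℝ) ^ (-1 : ℝ) :=
      Real.rpow_le_rpow_of_exponent_le hv1 (by linarith)
    calc |bb R z v - bb R₀ z₀ v| * Real.log (nm K v) * (nm K v : ℝ) ^ (-s)
        ≤ ((|C| * (nm K v : ℝ) ^ (-(1 / 2) : ℝ)) * Real.log (nm K v)) * (nm K v : ℝ) ^ (-1 : ℝ) :=
          mul_le_mul (mul_le_mul_of_nonneg_right (h1.trans h2) hl0) h3 hw0 (by positivity)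
      _ = |C| * (Real.log (nm K v) *
          ((nm K v : ℝ) ^ (-(1 / 2) : ℝ) * (nm K v : ℝ) ^ (-1 : ℝ))) := by ring
      _ = _ := by
          rw [← Real.rpow_add (nm_pos v)]
          norm_num

end

end Pool.Agent.T2H28.EC
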