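import Pool.Agent.W540.BE.Gen

/-! From residues to logarithmic averages. -/

set_option autoImplicit false

namespace Pool.Agent.T2H28.EC

open Filter Topology
open Pool.Agent.W540.BE

/-- **Integration.** -/
theorem log_lim {g d : ℝ → ℝ} {x : ℝ} (hg : ∀ ε : ℝ, 0 < ε → HasDerivAt g (-d ε) ε)
    (hd : Tendsto (fun ε : ℝ => ε * d ε) (𝓝[>] 0) (𝓝 x)) :
    Tendsto (fun ε : ℝ => g ε / Real.log (1 / ε)) (𝓝[>] 0) (𝓝 x) := by
  have hL : Tendsto (fun ε : ℝ => Real.log (1 / ε)) (𝓝[>] 0) atTop := by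
    have h := Real.tendsto_log_atTop.comp tendsto_inv_nhdsGT_zero
    refine h.congr fun ε => ?_
    rw [one_div]
    rfl
  rw [Metric.tendsto_nhds]
  intro η hη
  have h1 : ∀ᶠ ε : ℝ in 𝓝[>] 0, |ε * d ε - x| < η / 2 := by
    have := Metric.tendsto_nhds.1 hd (η / 2) (half_pos hη)
    simpa [Real.dist_eq] using this
  obtain ⟨δ, hδ0, hδ⟩ := (mem_nhdsGT_iff_exists_Ioc_subset (α := ℝ)).1 h1
  have hδ0' : (0 : ℝ) < δ := hδ0
  have hsub : ∀ ε : ℝ, 0 < ε → ε ≤ δ → |ε * d ε - x| < η / 2 := fun ε h2 h3 => hδ ⟨h2, h3⟩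
  have hder : ∀ c : ℝ, ∀ ε : ℝ, 0 < ε →
      HasDerivAt (fun ε => g ε + (x + c) * Real.log ε) ((x - ε * d ε + c) / ε) ε := by
    intro c ε hε
    have h2 := (hg ε hε).add ((Real.hasDerivAt_log hε.ne').const_mul (x + c))
    refine h2.congr_deriv ?_
    field_simp
    ring
  have hconv : Convex ℝ (Set.Ioc (0 : ℝ) δ) := convex_Ioc 0 δ
  have hint : interior (Set.Ioc (0 : ℝ) δ) = Set.Ioo 0 δ := interior_Ioc
  have hcont : ∀ c : ℝ, ContinuousOn (fun ε => g ε + (x + c) * Real.log ε) (Set.Ioc 0 δ) :=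
    fun c ε hε => (hder c ε hε.1).continuousAt.continuousWithinAt
  have hdiff : ∀ c : ℝ, DifferentiableOn ℝ (fun ε => g ε + (x + c) * Real.log ε)
      (interior (Set.Ioc 0 δ)) := fun c ε hε => by
    rw [hint] at hε
    exact (hder c ε hε.1).differentiableAt.differentiableWithinAt
  have hmono : MonotoneOn (fun ε => g ε + (x + η / 2) * Real.log ε) (Set.Ioc 0 δ) := by
    refine monotoneOn_of_deriv_nonneg hconv (hcont _) (hdiff _) fun ε hε => ?_
    rw [hint] at hε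
    rw [(hder _ ε hε.1).deriv]
    have h2 := (abs_lt.1 (hsub ε hε.1 hε.2.le)).2
    exact div_nonneg (by linarith) hε.1.le
  have hanti : AntitoneOn (fun ε => g ε + (x + -(η / 2)) * Real.log ε) (Set.Ioc 0 δ) := by
    refine antitoneOn_of_deriv_nonpos hconv (hcont _) (hdiff _) fun ε hε => ?_
    rw [hint] at hε
    rw [(hder _ ε hε.1).deriv]
    have h2 := (abs_lt.1 (hsub ε hε.1 hε.2.le)).1
    exact div_nonpos_of_nonpos_of_nonneg (by linarith) hε.1.le
  set A : ℝ := |g δ + (x + η / 2) * Real.log δ| + |g δ + (x + -(η / 2)) * Real.log δ| with hA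
  filter_upwards [hL.eventually_gt_atTop (2 * A / η), hL.eventually_gt_atTop 0,
    Ioc_mem_nhdsGT hδ0'] with ε h2 h3 h4
  have hl : Real.log ε = -Real.log (1 / ε) := by rw [one_div, Real.log_inv, neg_neg]
  have m1 := hmono h4 ⟨hδ0', le_rfl⟩ h4.2
  have m2 := hanti h4 ⟨hδ0', le_rfl⟩ h4.2
  simp only at m1 m2
  rw [Real.dist_eq]
  have e1 : g ε / Real.log (1 / ε) - x = (g ε + x * Real.log ε) / Real.log (1 / ε) := by
    rw [hl]
    field_simp
    ring
  have a1 := le_abs_self (g δ + (x + η / 2) * Real.log δ)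
  have a2 := neg_abs_le (g δ + (x + -(η / 2)) * Real.log δ)
  have a3 := abs_nonneg (g δ + (x + η / 2) * Real.log δ)
  have a4 := abs_nonneg (g δ + (x + -(η / 2)) * Real.log δ)
  rw [div_lt_iff₀ hη] at h2
  rw [e1, abs_div, abs_of_pos h3, div_lt_iff₀ h3, abs_lt]
  rw [hl] at m1 m2 ⊢
  constructor
  · nlinarith
  · nlinarith

variable {P : Type*} {N : P → ℕ}

theorem summable_log (hN : NormSys N) {ε : ℝ} (hε : 0 < ε) :
    Summable fun p : P => Real.log (N p) * (N p : ℝ) ^ (-(1 + ε)) := by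
  have h1 : Summable fun p : P => (1 / (ε / 2)) * (N p : ℝ) ^ (-(1 + ε / 2)) :=
    (hN.summable (-(1 + ε / 2)) (by linarith)).mul_left _
  refine Summable.of_nonneg_of_le (fun p => ?_) (fun p => ?_) h1
  · exact mul_nonneg (Real.log_natCast_nonneg _) (wP_nonneg ε p)
  · have hp : (0 : ℝ) < (N p : ℝ) := by
      have := hN.two_le p
      exact_mod_cast (by omega : 0 < N p)
    have h2 := Real.log_le_rpow_div (x := (N p : ℝ)) hp.le (half_pos hε)
    calc Real.log (N p) * (N p : ℝ) ^ (-(1 + ε))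
        ≤ ((N p : ℝ) ^ (ε / 2) / (ε / 2)) * (N p : ℝ) ^ (-(1 + ε)) :=
          mul_le_mul_of_nonneg_right h2 (wP_nonneg ε p)
      _ = (1 / (ε / 2)) * ((N p : ℝ) ^ (ε / 2) * (N p : ℝ) ^ (-(1 + ε))) := by ring
      _ = _ := by
          rw [← Real.rpow_add hp]
          congr 2
          ring

theorem hasDerivAt_EP (hN : NormSys N) {φ : P → ℝ} {B : ℝ} (hφ : ∀ p, |φ p| ≤ B) {ε : ℝ}
    (hε : 0 < ε) : HasDerivAt (fun ε => EP N ε φ)
      (-∑' p, φ p * Real.log (N p) * (N p : ℝ) ^ (-(1 + ε))) ε := by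
  have hB : ∀ p : P, |φ p| ≤ |B| := fun p => (hφ p).trans (le_abs_self B)
  have hpos : ∀ p : P, (0 : ℝ) < (N p : ℝ) := fun p => by
    have := hN.two_le p
    exact_mod_cast (by omega : 0 < N p)
  have h := hasDerivAt_tsum_of_isPreconnected
    (g := fun (p : P) (y : ℝ) => φ p * (N p : ℝ) ^ (-(1 + y)))
    (g' := fun (p : P) (y : ℝ) => φ p * (-(Real.log (N p) * (N p : ℝ) ^ (-(1 + y)))))
    (u := fun p : P => |B| * (Real.log (N p) * (N p : ℝ) ^ (-(1 + ε / 2))))
    (t := Set.Ioi (ε / 2)) (y₀ := ε) (y := ε)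
    ((summable_log hN (half_pos hε)).mul_left _) isOpen_Ioi isPreconnected_Ioi
    (fun p y hy => by
      have h1 : HasDerivAt (fun y : ℝ => -(1 + y)) (-1) y :=
        ((hasDerivAt_id y).const_add 1).neg
      have h2 := (h1.const_rpow (hpos p)).const_mul (φ p)
      refine h2.congr_deriv ?_
      ring)
    (fun p y hy => by
      rw [Real.norm_eq_abs, abs_mul, abs_neg, abs_of_nonneg
        (mul_nonneg (Real.log_natCast_nonneg _) (wP_nonneg y p))]
      refine mul_le_mul (hB p) (mul_le_mul_of_nonneg_left ?_ (Real.log_natCast_nonneg _))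
        (mul_nonneg (Real.log_natCast_nonneg _) (wP_nonneg y p)) (abs_nonneg _)
      refine Real.rpow_le_rpow_of_exponent_le ?_ ?_
      · have := hN.two_le p
        exact_mod_cast (by omega : 1 ≤ N p)
      · have : ε / 2 < y := hy
        linarith)
    (by simp only [Set.mem_Ioi]; linarith) (summable_EP hN hε hφ) (by
      simp only [Set.mem_Ioi]; linarith)
  refine h.congr_deriv ?_
  rw [← tsum_neg]
  refine tsum_congr fun p => ?_
  ring

/-- **From residues to logarithmic averages.** -/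
theorem EP_log_lim (hN : NormSys N) {φ : P → ℝ} {B : ℝ} (hφ : ∀ p, |φ p| ≤ B) {x : ℝ}
    (hx : Tendsto (fun s : ℝ => (s - 1) * ∑' p, φ p * Real.log (N p) * (N p : ℝ) ^ (-s))
      (𝓝[>] 1) (𝓝 x)) :
    Tendsto (fun ε : ℝ => EP N ε φ / Real.log (1 / ε)) (𝓝[>] 0) (𝓝 x) := by
  refine log_lim (fun ε hε => hasDerivAt_EP hN hφ hε) ?_
  have h1 : Tendsto (fun ε : ℝ => 1 + ε) (𝓝[>] 0) (𝓝[>] 1) := by
    refine tendsto_nhdsWithin_iff.2 ⟨?_, ?_⟩
    · have h2 : Tendsto (fun ε : ℝ => 1 + ε) (𝓝 0) (𝓝 (1 + 0)) :=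
        (continuous_const.add continuous_id).tendsto 0
      rw [add_zero] at h2
      exact h2.mono_left nhdsWithin_le_nhds
    · filter_upwards [self_mem_nhdsWithin] with ε hε
      have : (0 : ℝ) < ε := hε
      simp only [Set.mem_Ioi]
      linarith
  refine (hx.comp h1).congr fun ε => ?_
  simp only [Function.comp]
  rw [add_sub_cancel_left]

end Pool.Agent.T2H28.EC
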