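import Pool.Agent.T2H28.EC.Defs
import Pool.Agent.T2H28.EC.Int
import Pool.Agent.W353.FB.Main
import Pool.Agent.Y149.LN.Fam

/-! The values of products with curves. -/

set_option autoImplicit false

namespace Pool.Agent.T2H28.EC

open NumberField IsDedekindDomain Filter Topology
open Pool.Agent.W353.FB Pool.Agent.W540.BE
open Pool.Agent.Y722.EP (points points_congr rE rE_eq abs_rE trace trace_bound sqrt_nm_pos)

section
variable {K : Type} [Field K]

/-- the difference of the values of two products -/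
theorem product_sub (f : Fibration K) {E : LocalValue K} {κ : Type} [Field κ] [Finite κ]
    {φ : 𝓞 K →+* κ} {z z₀ A : ℝ} (hz : productValue f E κ φ z)
    (hz₀ : productValue f lineTrace κ φ z₀) (hA : f.IsAverage 1 φ A) :
    ∃ e : ℝ, E κ φ e ∧ z - z₀ = e * A / Nat.card κ := by
  obtain ⟨e, c, he, hc, rfl⟩ := hz
  obtain ⟨e₀, c₀, he₀, hc₀, rfl⟩ := hz₀
  obtain ⟨a, ha, rfl⟩ := hA
  have hr := f.one_le
  refine ⟨e, he, ?_⟩
  have hfin : (f.points φ).Finite := Set.toFinite _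
  have h1 : ∀ t ∈ f.points φ, c t = c₀ t + e * a t := by
    intro t ht
    obtain ⟨a₁, a₂, h2, h3, h4⟩ := hc t ht
    obtain ⟨b₁, b₂, h5, h6, h7⟩ := hc₀ t ht
    have h8 : e₀ = 0 := he₀
    rw [h4, h7, isTrace_unique (by omega) h6 h3, isTrace_unique (by omega) h2 (ha t ht), h8]
    ring
  have h2 : ∑ᶠ t ∈ f.points φ, e * a t = e * ∑ᶠ t ∈ f.points φ, a t :=
    (mul_finsum_mem a e).symm
  rw [finsum_mem_congr rfl h1, finsum_mem_add_distrib hfin, h2]
  ring

end

section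
variable {K : Type} [Field K] [NumberField K]

/-- a residue field -/
structure Dat (v : HeightOneSpectrum (𝓞 K)) where
  /-- the field -/
  κ : Type
  fld : Field κ
  fin : Finite κ
  /-- the reduction -/
  φ : 𝓞 K →+* κ
  ker : RingHom.ker φ = v.asIdeal
  card : Nat.card κ = Ideal.absNorm v.asIdeal

theorem exists_dat (v : HeightOneSpectrum (𝓞 K)) : Nonempty (Dat v) := by
  obtain ⟨κ, h1, h2, φ, hk, hc⟩ := Pool.Agent.W353.PV.exists_ext v 1 le_rfl
  rw [pow_one] at hc
  exact ⟨⟨κ, h1, h2, φ, hk, hc⟩⟩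

/-- the chosen residue field -/
noncomputable def dat (v : HeightOneSpectrum (𝓞 K)) : Dat v := (exists_dat v).some

noncomputable instance (v : HeightOneSpectrum (𝓞 K)) : Field (dat v).κ := (dat v).fld

instance (v : HeightOneSpectrum (𝓞 K)) : Finite (dat v).κ := (dat v).fin

theorem valueAt_dat {P : LocalValue K} {v : HeightOneSpectrum (𝓞 K)} {z : ℝ}
    (h : ValueAt P v z) : P (dat v).κ (dat v).φ z := by
  have h1 := h (dat v).κ (dat v).φ (dat v).ker (dat v).card
  have h2 : ∀ ψ : 𝓞 K →+* 𝓞 K, (∀ x, ψ x = x) → P (dat v).κ ((dat v).φ.comp ψ) z →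
      P (dat v).κ (dat v).φ z := by
    intro ψ h3 h4
    have h5 : (dat v).φ.comp ψ = (dat v).φ := RingHom.ext fun x => by
      rw [RingHom.comp_apply, h3]
    rwa [h5] at h4
  exact h2 _ (fun x => rfl) h1

/-- the number of points over the residue field -/
theorem points_dat (v : HeightOneSpectrum (𝓞 K)) (a b : ℤ) :
    points (dat v).κ a b = points (𝓞 K ⧸ v.asIdeal) a b := by
  set φ := (dat v).φ with hφ
  have hk : RingHom.ker φ = v.asIdeal := (dat v).ker
  have hinj : Function.Injective (RingHom.kerLift φ) := RingHom.kerLift_injective φ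
  have hcard : Nat.card (𝓞 K ⧸ RingHom.ker φ) = Nat.card (dat v).κ := by
    rw [hk, (dat v).card, Ideal.absNorm_apply, Submodule.cardQuot_apply]
  have hbij : Function.Bijective (RingHom.kerLift φ) :=
    (Nat.bijective_iff_injective_and_card _).2 ⟨hinj, hcard⟩
  rw [← points_congr (RingEquiv.ofBijective _ hbij), points_congr (Ideal.quotEquivOfEq hk)]

theorem ellipticTrace_dat {v : HeightOneSpectrum (𝓞 K)} {a b : ℤ} {e : ℝ}
    (h : ellipticTrace a b (dat v).κ (dat v).φ e) : e = trace v a b := by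
  have h1 : e = (Nat.card (dat v).κ : ℝ) + 1 - points (dat v).κ a b := h
  rw [h1, points_dat, (dat v).card]
  unfold trace
  push_cast
  ring

theorem card_dat (v : HeightOneSpectrum (𝓞 K)) : Nat.card (dat v).κ = nm K v := (dat v).card

theorem nm_pos (v : HeightOneSpectrum (𝓞 K)) : (0 : ℝ) < nm K v := by
  have := two_le_nm v
  exact_mod_cast (by omega : 0 < nm K v)

/-- finitely many primes contain `2` -/
theorem two_notMem : ∀ᶠ v : HeightOneSpectrum (𝓞 K) in cofinite, (2 : 𝓞 K) ∉ v.asIdeal := by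
  rw [Filter.eventually_cofinite]
  have h2 : (Ideal.span {(2 : 𝓞 K)}) ≠ 0 := by
    rw [Ne, Ideal.zero_eq_bot, Ideal.span_singleton_eq_bot]
    exact two_ne_zero
  refine (Ideal.finite_factors h2).subset fun v hv => ?_
  rw [Set.mem_ofPred_eq, not_not] at hv
  rw [Set.mem_ofPred_eq, Ideal.dvd_span_singleton]
  exact hv

variable {f : Fibration K} {n : ℕ} {B : Set (MvPolynomial (Fin n) (𝓞 K))} {g N : ℕ}

/-- the normalised traces -/
theorem exists_T (h : HasTrace f B g N) : ∃ (T : HeightOneSpectrum (𝓞 K) → ℝ) (C : ℝ), 0 ≤ C ∧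
    (∀ v, |T v| ≤ N) ∧ ∀ᶠ v in cofinite, ∃ A : ℝ, f.IsAverage 1 (dat v).φ A ∧
      IsTrace B g 1 (dat v).φ (T v * Real.sqrt (nm K v)) ∧
        |A - T v * Real.sqrt (nm K v)| ≤ C := by
  classical
  obtain ⟨C, hC⟩ := h
  have h1 : ∀ v : HeightOneSpectrum (𝓞 K), ∃ t : ℝ, |t| ≤ N ∧
      ((∀ (κ : Type) [Field κ] (φ : 𝓞 K →+* κ), RingHom.ker φ = v.asIdeal →
        Nat.card κ = Ideal.absNorm v.asIdeal → ∃ A a : ℝ, f.IsAverage 1 φ A ∧
          IsTrace B g 1 φ a ∧ |a| ≤ N * Real.sqrt (Nat.card κ) ∧ |A - a| ≤ C) →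
        ∃ A : ℝ, f.IsAverage 1 (dat v).φ A ∧ IsTrace B g 1 (dat v).φ (t * Real.sqrt (nm K v)) ∧
          |A - t * Real.sqrt (nm K v)| ≤ C) := by
    intro v
    by_cases hv : ∀ (κ : Type) [Field κ] (φ : 𝓞 K →+* κ), RingHom.ker φ = v.asIdeal →
        Nat.card κ = Ideal.absNorm v.asIdeal → ∃ A a : ℝ, f.IsAverage 1 φ A ∧
          IsTrace B g 1 φ a ∧ |a| ≤ N * Real.sqrt (Nat.card κ) ∧ |A - a| ≤ C
    · obtain ⟨A, a, h2, h3, h4, h5⟩ := hv (dat v).κ (dat v).φ (dat v).ker (dat v).card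
      have hs := sqrt_nm_pos v
      have e1 : a / Real.sqrt (nm K v) * Real.sqrt (nm K v) = a := div_mul_cancel₀ _ hs.ne'
      rw [card_dat] at h4
      refine ⟨a / Real.sqrt (nm K v), ?_, fun _ => ⟨A, h2, ?_, ?_⟩⟩
      · rw [abs_div, abs_of_pos hs, div_le_iff₀ hs]
        exact h4
      · rw [e1]; exact h3
      · rw [e1]; exact h5
    · exact ⟨0, by rw [abs_zero]; exact Nat.cast_nonneg _, fun h => absurd h hv⟩
  choose T hT1 hT2 using h1
  refine ⟨T, |C|, abs_nonneg C, hT1, hC.mono fun v hv => ?_⟩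
  obtain ⟨A, h2, h3, h4⟩ := hT2 v hv
  exact ⟨A, h2, h3, h4.trans (le_abs_self C)⟩

end

end Pool.Agent.T2H28.EC
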