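import Pool.Agent.T2H28.EC.Asym

/-! Bessel's inequality for the products of a fibration with modular elliptic curves. -/

set_option autoImplicit false

namespace Pool.Agent.T2H28.EC

open NumberField IsDedekindDomain Filter Topology
open Pool.Agent.W353.FB Pool.Agent.W540.BE
open Pool.Agent.H341R2 (lam lam_tendsto)
open Pool.Agent.Y722.EP (IsModular NotIsogenous rE rE_eq abs_rE trace trace_bound sqrt_nm_pos)
open Pool.Agent.Y149.LN (uK uK_re norm_uK sumK bessel_D zre)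

section
variable {K : Type} [Field K] [NumberField K] {f : Fibration K} {n : ℕ}
  {B : Set (MvPolynomial (Fin n) (𝓞 K))} {g N : ℕ}

theorem rpow_half (v : HeightOneSpectrum (𝓞 K)) :
    (nm K v : ℝ) ^ (-(1 / 2) : ℝ) = (Real.sqrt (nm K v))⁻¹ := by
  rw [Real.rpow_neg (nm_pos v).le, Real.sqrt_eq_rpow]

/-- the values of the product with an elliptic curve -/
theorem elliptic_close {T : HeightOneSpectrum (𝓞 K) → ℝ} {C : ℝ}
    (hT : ∀ᶠ v in cofinite, ∃ A : ℝ, f.IsAverage 1 (dat v).φ A ∧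
      IsTrace B g 1 (dat v).φ (T v * Real.sqrt (nm K v)) ∧ |A - T v * Real.sqrt (nm K v)| ≤ C)
    {a b : ℤ} {R : Finset (HeightOneSpectrum (𝓞 K))} {z : HeightOneSpectrum (𝓞 K) → ℝ}
    (hz : IsSystem (productValue f (ellipticTrace a b)) R z)
    {R₀ : Finset (HeightOneSpectrum (𝓞 K))} {z₀ : HeightOneSpectrum (𝓞 K) → ℝ}
    (hz₀ : IsSystem (productValue f lineTrace) R₀ z₀) :
    ∀ᶠ v in cofinite, |T v * rE a b v - (bb R z v - bb R₀ z₀ v)| ≤
      (2 * C) * (nm K v : ℝ) ^ (-(1 / 2) : ℝ) := by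
  filter_upwards [hT, bb_eventually R z, bb_eventually R₀ z₀, two_notMem] with v h1 h2 h3 h4
  obtain ⟨A, hA, -, hAC⟩ := h1
  obtain ⟨e, he, heq⟩ := product_sub f (valueAt_dat (hz.1 v h2.1)) (valueAt_dat (hz₀.1 v h3.1)) hA
  have he' := ellipticTrace_dat he
  have hs := sqrt_nm_pos v
  have hq : Real.sqrt (nm K v) * Real.sqrt (nm K v) = nm K v := Real.mul_self_sqrt (nm_pos v).le
  have hb := trace_bound h4 a b
  rw [h2.2, h3.2, heq, card_dat, rE_eq h4, he', rpow_half]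
  set s := Real.sqrt (nm K v) with hsdef
  set t : ℝ := (trace v a b : ℝ) with ht
  rw [← hq]
  have e1 : T v * (t / s) - t * A / (s * s) = -(t * (A - T v * s)) / (s * s) := by
    field_simp
    ring
  rw [e1, abs_div, abs_neg, abs_mul, abs_of_pos (mul_pos hs hs), div_le_iff₀ (mul_pos hs hs)]
  have e2 : 2 * C * s⁻¹ * (s * s) = (2 * s) * C := by
    field_simp
  rw [e2]
  exact mul_le_mul hb hAC (abs_nonneg _) (by positivity)

/-- the squares of the traces -/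
theorem square_eq (hg : 1 ≤ g) {T : HeightOneSpectrum (𝓞 K) → ℝ} {C : ℝ}
    (hT : ∀ᶠ v in cofinite, ∃ A : ℝ, f.IsAverage 1 (dat v).φ A ∧
      IsTrace B g 1 (dat v).φ (T v * Real.sqrt (nm K v)) ∧ |A - T v * Real.sqrt (nm K v)| ≤ C)
    {R : Finset (HeightOneSpectrum (𝓞 K))} {c : HeightOneSpectrum (𝓞 K) → ℝ}
    (hc : IsSystem (squareValue B g) R c) :
    ∀ᶠ v in cofinite, T v ^ 2 = bb R c v := by
  filter_upwards [hT, bb_eventually R c] with v h1 h2
  obtain ⟨A, -, htr, -⟩ := h1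
  obtain ⟨a, ha, heq⟩ := valueAt_dat (hc.1 v h2.1)
  rw [isTrace_unique (by omega) ha htr, card_dat] at heq
  rw [h2.2, heq, mul_pow, Real.sq_sqrt (nm_pos v).le]
  have := (nm_pos v).ne'
  field_simp

/-- the family of the normalised traces -/
theorem family {ι : Type*} (S : Finset ι) (a b : ι → ℤ)
    (hΔ : ∀ i ∈ S, 4 * a i ^ 3 + 27 * b i ^ 2 ≠ 0) (hmod : ∀ i ∈ S, IsModular (a i) (b i))
    (hne : ∀ i ∈ S, ∀ j ∈ S, i ≠ j → NotIsogenous (a i) (b i) (a j) (b j)) (Y : ℝ) :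
    ∃ C : ℝ, ∀ᶠ ε : ℝ in 𝓝[>] 0, ∀ c : ι → ℝ, (∀ i ∈ S, 0 ≤ c i ∧ c i ≤ Y) →
      (EP (nm K) ε fun v => ‖∑ i ∈ S, (c i : ℂ) * uK a b (i, 0) v‖ ^ 2) ≤
        Module.finrank ℚ K * ((∑ i ∈ S, c i ^ 2) * lam ε) + C := by
  classical
  have hinj : Function.Injective fun i : ι => (i, (0 : ℝ)) := fun i j h => (Prod.mk.inj h).1
  obtain ⟨C, hC⟩ := sumK (K := K) (a := a) (b := b) (S.map ⟨fun i => (i, (0 : ℝ)), hinj⟩)
    (fun x hx => by
      obtain ⟨i, hi, rfl⟩ := Finset.mem_map.1 hx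
      exact hΔ i hi)
    (fun x hx => by
      obtain ⟨i, hi, rfl⟩ := Finset.mem_map.1 hx
      exact hmod i hi)
    (fun x hx y hy hxy => by
      obtain ⟨i, hi, rfl⟩ := Finset.mem_map.1 hx
      obtain ⟨j, hj, rfl⟩ := Finset.mem_map.1 hy
      exact hne i hi j hj hxy) Y
  refine ⟨C, hC.mono fun ε h c hc => ?_⟩
  have h1 := h (fun x => c x.1) (fun x hx => by
      obtain ⟨i, hi, rfl⟩ := Finset.mem_map.1 hx
      exact hc i hi)
  simp only [Finset.sum_map, Function.Embedding.coeFn_mk] at h1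
  exact h1

theorem re_uK {ι : Type*} (a b : ι → ℤ) (i : ι) (v : HeightOneSpectrum (𝓞 K)) :
    (uK a b (i, 0) v).re = rE (a i) (b i) v := by
  rw [uK_re]
  have : zre (K := K) (i, (0 : ℝ)).2 v = 1 := by
    unfold zre Pool.Agent.W353.L1.zz
    simp
  rw [this, mul_one]

/-- **Bessel's inequality.** -/
theorem main_sum (hg : 1 ≤ g) (hB : HasTrace f B g N) {ι : Type*} (S : Finset ι) (a b : ι → ℤ)
    (hΔ : ∀ i ∈ S, 4 * a i ^ 3 + 27 * b i ^ 2 ≠ 0) (hmod : ∀ i ∈ S, IsModular (a i) (b i))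
    (hne : ∀ i ∈ S, ∀ j ∈ S, i ≠ j → NotIsogenous (a i) (b i) (a j) (b j))
    (R : ι → Finset (HeightOneSpectrum (𝓞 K))) (z : ι → HeightOneSpectrum (𝓞 K) → ℝ)
    (R₀ R₁ : Finset (HeightOneSpectrum (𝓞 K))) (z₀ c : HeightOneSpectrum (𝓞 K) → ℝ)
    (hz : ∀ i ∈ S, IsSystem (productValue f (ellipticTrace (a i) (b i))) (R i) (z i))
    (hz₀ : IsSystem (productValue f lineTrace) R₀ z₀) (hc : IsSystem (squareValue B g) R₁ c)
    {σ : ℝ} (hσ : |σ| = 1) {η : ℝ} (hη : 0 < η) :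
    ∀ᶠ ε : ℝ in 𝓝[>] 0,
      ∑ i ∈ S, (max (σ * (logResidue (R i) (z i) ε - logResidue R₀ z₀ ε)) 0) ^ 2 ≤
        Module.finrank ℚ K * logResidue R₁ c ε + η := by
  classical
  have hN : NormSys (nm K) := normSys
  obtain ⟨T, C, hC0, hT, hev⟩ := exists_T hB
  have hD : (0 : ℝ) < Module.finrank ℚ K := by
    exact_mod_cast Module.finrank_pos (R := ℚ) (M := K)
  have hσ2 : σ ^ 2 = 1 := by rw [← sq_abs, hσ, one_pow]
  have hTr : ∀ i, ∀ v : HeightOneSpectrum (𝓞 K), |T v * rE (a i) (b i) v| ≤ N * 2 := fun i v => by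
    rw [abs_mul]
    exact mul_le_mul (hT v) (abs_rE _ _ v) (abs_nonneg _) (Nat.cast_nonneg _)
  have hx : ∀ i ∈ S, Tendsto (fun ε : ℝ =>
      (EP (nm K) ε fun v => (σ * T v) * (uK a b (i, 0) v).re) / lam ε -
        σ * (logResidue (R i) (z i) ε - logResidue R₀ z₀ ε)) (𝓝[>] 0) (𝓝 0) := by
    intro i hi
    obtain ⟨M₁, -, hM₁⟩ := bb_bdd (hz i hi)
    obtain ⟨M₂, -, hM₂⟩ := bb_bdd hz₀
    obtain ⟨M, hM⟩ := EP_close (hTr i) (ψ := fun v => bb (R i) (z i) v - bb R₀ z₀ v)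
      (M₂ := M₁ + M₂) (fun v => (abs_sub _ _).trans (add_le_add (hM₁ v) (hM₂ v)))
      (elliptic_close hev (hz i hi) hz₀)
    have l1 := (lam_log (hTr i)).add (close_lim tendsto_log hM)
    have l2 := l1.const_mul σ
    rw [add_zero, mul_zero] at l2
    refine l2.congr' ?_
    filter_upwards [self_mem_nhdsWithin] with ε hε
    have hε' : (0 : ℝ) < ε := hε
    have e1 : EP (nm K) ε (fun v => bb (R i) (z i) v - bb R₀ z₀ v) =
        EP (nm K) ε (bb (R i) (z i)) - EP (nm K) ε (bb R₀ z₀) := by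
      unfold EP
      rw [← (summable_EP hN hε' hM₁).tsum_sub (summable_EP hN hε' hM₂)]
      exact tsum_congr fun v => by ring
    have e2 : (EP (nm K) ε fun v => (σ * T v) * (uK a b (i, 0) v).re) =
        σ * EP (nm K) ε fun v => T v * rE (a i) (b i) v := by
      rw [← EP_const_mul]
      unfold EP
      refine tsum_congr fun v => ?_
      beta_reduce
      rw [re_uK]
      ring
    rw [e1, e2, logResidue_eq, logResidue_eq]
    ring
  have hbes := bessel_D hN lam_tendsto (EP_one K) S (fun i v => uK a b (i, 0) v)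
    (fun v => σ * T v) (bu := 2) (bT := N) hD (fun i v => norm_uK _ v) (fun v => by
      rw [abs_mul, hσ, one_mul]
      exact hT v) (family S a b hΔ hmod hne)
    (fun i ε => σ * (logResidue (R i) (z i) ε - logResidue R₀ z₀ ε)) hx (half_pos hη)
  -- the squares
  obtain ⟨M₃, -, hM₃⟩ := bb_bdd hc
  have hT2 : ∀ v, |T v ^ 2| ≤ (N : ℝ) ^ 2 := fun v => by
    rw [abs_pow]
    exact pow_le_pow_left₀ (abs_nonneg _) (hT v) 2
  obtain ⟨M, hM⟩ := EP_close hT2 hM₃ (C := 0) ((square_eq hg hev hc).mono fun v hv => by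
    rw [hv, sub_self, abs_zero, zero_mul])
  have l1 := (lam_log hT2).add (close_lim tendsto_log hM)
  rw [add_zero] at l1
  have h3 := l1.const_mul (Module.finrank ℚ K : ℝ)
  rw [mul_zero] at h3
  filter_upwards [hbes, h3.eventually_lt_const (half_pos hη)] with ε h4 h5
  have e3 : (EP (nm K) ε fun v => (σ * T v) ^ 2) = EP (nm K) ε fun v => T v ^ 2 := by
    unfold EP
    refine tsum_congr fun v => ?_
    beta_reduce
    rw [mul_pow, hσ2, one_mul]
  rw [e3] at h4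
  rw [logResidue_eq R₁ c]
  have e4 : (Module.finrank ℚ K : ℝ) * (EP (nm K) ε (fun v => T v ^ 2) / lam ε -
      EP (nm K) ε (fun v => T v ^ 2) / Real.log (1 / ε) +
      (EP (nm K) ε (fun v => T v ^ 2) / Real.log (1 / ε) -
        EP (nm K) ε (bb R₁ c) / Real.log (1 / ε))) =
      Module.finrank ℚ K * (EP (nm K) ε (fun v => T v ^ 2) / lam ε) -
        Module.finrank ℚ K * (EP (nm K) ε (bb R₁ c) / Real.log (1 / ε)) := by ring
  rw [e4] at h5
  linarith

/-- the logarithmic average of the squares -/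
theorem square_le (hg : 1 ≤ g) (hB : HasTrace f B g N) {R₁ : Finset (HeightOneSpectrum (𝓞 K))}
    {c : HeightOneSpectrum (𝓞 K) → ℝ} (hc : IsSystem (squareValue B g) R₁ c) {η : ℝ}
    (hη : 0 < η) : ∀ᶠ ε : ℝ in 𝓝[>] 0, logResidue R₁ c ε ≤ (N : ℝ) ^ 2 + η := by
  have hN : NormSys (nm K) := normSys
  obtain ⟨T, C, hC0, hT, hev⟩ := exists_T hB
  obtain ⟨M₃, -, hM₃⟩ := bb_bdd hc
  have hT2 : ∀ v, |T v ^ 2| ≤ (N : ℝ) ^ 2 := fun v => by
    rw [abs_pow]
    exact pow_le_pow_left₀ (abs_nonneg _) (hT v) 2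
  obtain ⟨M, hM⟩ := EP_close hT2 hM₃ (C := 0) ((square_eq hg hev hc).mono fun v hv => by
    rw [hv, sub_self, abs_zero, zero_mul])
  have l1 := (lam_log hT2).add (close_lim tendsto_log hM)
  rw [add_zero] at l1
  have l2 := (EP_one K).const_mul ((N : ℝ) ^ 2)
  rw [mul_one] at l2
  filter_upwards [l1.eventually_const_lt (by linarith : -(η / 2) < 0),
    l2.eventually_lt_const (lt_add_of_pos_right _ (half_pos hη)),
    lam_tendsto.eventually_gt_atTop 0, self_mem_nhdsWithin] with ε h1 h2 h3 h4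
  have hε : (0 : ℝ) < ε := h4
  have h5 : EP (nm K) ε (fun v => T v ^ 2) / lam ε ≤
      (N : ℝ) ^ 2 * ((EP (nm K) ε fun _ => 1) / lam ε) := by
    rw [← mul_div_assoc]
    exact div_le_div_of_nonneg_right
      (EP_le hN hε hT2 fun v => (le_abs_self _).trans (hT2 v)) h3.le
  rw [logResidue_eq]
  linarith

end

end Pool.Agent.T2H28.EC
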